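import Pool.Agent.H57.AR.Targets
import Pool.Agent.H57.SO.Uv
import Pool.Agent.H68.GC.OLF0

/-!
# All reducts, all arities, row DDXR: combinations by polymorphisms of the template of the fibres
-/

set_option autoImplicit false

namespace Pool.Agent.H73.AR

open Pool.Agent.H68.BP Pool.Agent.H58.SF Pool.Agent.H53.GC Pool.Agent.H53.NR Pool.Agent.H53.GR
open Pool.Agent.H57.SO (Pal Col vt Exa Sb FBl Sbn Bh fib sigF SF)
open Pool.Agent.H57.EQ (Cx)
open Pool.Agent.H57.AR
open Function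

variable {V S : Type} {X : Type}

theorem spl_inj {ρ : Sig} {W : Type} (𝔹 : Str ρ V) {x : W → V} (hx : Injective x) :
    spl 𝔹 x = pull 𝔹 x := by
  funext l z
  apply propext
  exact ⟨fun h => h.1, fun h => ⟨h, fun i j hij => hx hij⟩⟩

/-- combinations of tuples in the fibres -/
theorem ddxr_fib {σ ρ : Sig} [LinearOrder V] [Finite S] {𝔸 : Str σ V}
    {𝔹 : Str ρ V} {M : ℕ} {c : V → V → S ⊕ X} {A : Type} {n : ℕ}
    {N : (A → Dm ρ M) → Dm ρ M} (hN : IsPoly (tf 𝔸 𝔹 M c) (tf 𝔸 𝔹 M c) N)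
    (G : A → Fin n → V) (hG : ∀ i, Injective (G i)) (t : Fin n → S)
    (ht : ∀ i a, c (G i a) (G i a) = Sum.inl (t a)) :
    ∀ (s0 : SF S σ M) (sv : Fin s0.2.1 → Fin n), StrictMono sv →
      (∀ a, t (sv a) = s0.2.2.2 a) →
      (∀ i, relP 𝔸 M s0.1 (fun a => G i (sv (s0.2.2.1 a)))) →
      ∃ x : Fin s0.2.1 → V, Injective x ∧ (∀ a, c (x a) (x a) = Sum.inl (t (sv a))) ∧
        relP 𝔸 M s0.1 (fun a => x (s0.2.2.1 a)) ∧
        ∀ (j : Fin M) (α : Fin (j + 1) → Fin s0.2.1), StrictMono α →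
          N (fun a => ⟨j, pull 𝔹 (fun i => G a (sv (α i)))⟩) = ⟨j, pull 𝔹 (fun i => x (α i))⟩ := by
  classical
  intro s0
  obtain ⟨i0, rfl⟩ := (Finite.equivFin (SF S σ M)).symm.surjective s0
  intro sv hsv hty hA
  unfold tf tmpl at hN
  have hp := (Pool.Agent.H68.GC.poly_strOn _ _ _).1 hN
    (⟨some i0, id⟩ : Sym (sigF S σ M) M)
    (fun l jα => ⟨jα.1, spl 𝔹 (fun i => G l (sv (jα.2 i)))⟩)
    (fun l => ⟨fun a => G l (sv a), ⟨(hG l).comp hsv.injective,
        fun a => (ht l (sv a)).trans (congrArg Sum.inl (hty a)), hA l⟩,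
      fun a b hab => by
        have h1 : a = b := hab
        rw [h1],
      fun j α _ => rfl⟩)
  obtain ⟨x, ⟨hxi, hxt, hxA⟩, -, hx⟩ := hp
  refine ⟨x, hxi, fun a => (hxt a).trans (congrArg Sum.inl (hty a).symm), hxA, ?_⟩
  intro j α hα
  have h1 := hx j α hα
  have e1 : spl 𝔹 (fun i => x (α i)) = pull 𝔹 (fun i => x (α i)) :=
    spl_inj 𝔹 (hxi.comp hα.injective)
  rw [e1] at h1
  have h2 : (fun a => (⟨j, spl 𝔹 (fun i => G a (sv (α i)))⟩ : Dm ρ M)) =
      fun a => ⟨j, pull 𝔹 (fun i => G a (sv (α i)))⟩ := by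
    funext a
    have e2 : spl 𝔹 (fun i => G a (sv (α i))) = pull 𝔹 (fun i => G a (sv (α i))) :=
      spl_inj 𝔹 ((hG a).comp (hsv.injective.comp hα.injective))
    rw [e2]
  rw [← h2]
  exact h1

section struct

variable {ρ : Sig} {A : Type} {n : ℕ}

/-- the structure given by `N` -/
def XX (𝔹 : Str ρ V) {M : ℕ} (N : (A → Dm ρ M) → Dm ρ M) (G : A → Fin n → V) :
    Str ρ (Fin n) :=
  fun l z => ∃ (j : Fin M) (α : Fin (j + 1) → Fin n) (ST : Str ρ (Fin (j + 1)))
    (y : Fin (ρ.ar l) → Fin (j + 1)), StrictMono α ∧ Surjective y ∧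
    N (fun a => ⟨j, pull 𝔹 (fun i => G a (α i))⟩) = ⟨j, ST⟩ ∧ (∀ i, z i = α (y i)) ∧ ST l y

/-- enumeration of the range of a finite tuple -/
theorem enum {m k : ℕ} (z : Fin m → Fin k) :
    ∃ (r : ℕ) (α : Fin r → Fin k) (y : Fin m → Fin r), r ≤ m ∧ (1 ≤ m → 1 ≤ r) ∧ StrictMono α ∧
      Surjective y ∧ ∀ i, z i = α (y i) := by
  classical
  let K : Finset (Fin k) := Finset.univ.image z
  have hex : ∀ a : Fin m, ∃ b : Fin K.card, K.orderEmbOfFin rfl b = z a := by
    intro a
    have h1 : z a ∈ K := Finset.mem_image_of_mem _ (Finset.mem_univ a)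
    have h2 : z a ∈ Set.range (K.orderEmbOfFin rfl) := by
      rw [Finset.range_orderEmbOfFin]
      exact h1
    exact h2
  choose y hy using hex
  refine ⟨K.card, K.orderEmbOfFin rfl, y, ?_, ?_, (K.orderEmbOfFin rfl).strictMono, ?_,
    fun i => (hy i).symm⟩
  · refine le_trans Finset.card_image_le ?_
    simp
  · intro hm
    refine Finset.card_pos.2 ⟨z ⟨0, hm⟩, Finset.mem_image_of_mem _ (Finset.mem_univ _)⟩
  · intro b
    have h1 : K.orderEmbOfFin rfl b ∈ K := Finset.orderEmbOfFin_mem _ _ _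
    obtain ⟨a, -, ha⟩ := Finset.mem_image.1 h1
    refine ⟨a, ?_⟩
    apply (K.orderEmbOfFin rfl).injective
    rw [hy a, ha]

theorem xx_iff {𝔹 : Str ρ V} {M : ℕ} (har : ∀ l, 1 ≤ ρ.ar l ∧ ρ.ar l < M)
    {N : (A → Dm ρ M) → Dm ρ M} {G : A → Fin n → V} {k : ℕ} {sv : Fin k → Fin n}
    (hsv : StrictMono sv) {x : Fin k → V}
    (hx : ∀ (j : Fin M) (α : Fin (j + 1) → Fin k), StrictMono α →
      N (fun a => ⟨j, pull 𝔹 (fun i => G a (sv (α i)))⟩) = ⟨j, pull 𝔹 (fun i => x (α i))⟩)
    (l : Fin ρ.m) (z : Fin (ρ.ar l) → Fin k) :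
    XX 𝔹 N G l (fun i => sv (z i)) ↔ 𝔹 l (fun i => x (z i)) := by
  constructor
  · rintro ⟨j, α, ST, y, hα, hy, hN, hz, hST⟩
    -- factor `α` through `sv`
    have hfac : ∀ i, ∃ b, sv b = α i := by
      intro i
      obtain ⟨a, rfl⟩ := hy i
      exact ⟨z a, hz a⟩
    choose β hβ using hfac
    have hβm : StrictMono β := by
      intro a b hab
      have h1 := hα hab
      rw [← hβ a, ← hβ b] at h1
      exact hsv.lt_iff_lt.1 h1
    have h1 := hx j β hβm
    have h2 : (fun a => (⟨j, pull 𝔹 (fun i => G a (sv (β i)))⟩ : Dm ρ M)) =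
        fun a => ⟨j, pull 𝔹 (fun i => G a (α i))⟩ := by
      funext a
      have : (fun i => G a (sv (β i))) = fun i => G a (α i) := by
        funext i
        rw [hβ]
      rw [this]
    rw [h2, hN] at h1
    have h3 : ST = pull 𝔹 (fun i => x (β i)) := eq_of_heq (Sigma.mk.inj h1).2
    rw [h3] at hST
    have h4 : (fun i => x (z i)) = fun i => x (β (y i)) := by
      funext i
      have : z i = β (y i) := by
        apply hsv.injective
        rw [hβ]
        exact hz i
      rw [this]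
    rw [h4]
    exact hST
  · intro h
    obtain ⟨r, α, y, hr, hr1, hα, hy, hz⟩ := enum z
    obtain ⟨ha1, haM⟩ := har l
    obtain ⟨j, rfl⟩ : ∃ j, r = j + 1 := ⟨r - 1, by have := hr1 ha1; omega⟩
    refine ⟨⟨j, by omega⟩, fun i => sv (α i), pull 𝔹 (fun i => x (α i)), y, hsv.comp hα, hy,
      hx ⟨j, by omega⟩ α hα, fun i => congrArg sv (hz i), ?_⟩
    have h4 : (fun i => x (z i)) = fun i => x (α (y i)) := by
      funext i
      rw [hz i]
    rw [h4] at h
    exact h

end struct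

theorem pf_DDXR : T_DDXR := by
  classical
  intro σ ρ V S X _ _ P 𝔸 𝔹 M c hs A _ _ N hN W _ rk hrk G hG hGt
  have hc := hs.lnk.col
  have har := hs.base.ar
  have hM := hs.base.three
  let lo : LinearOrder W := LinearOrder.lift' rk hrk
  let fi : Fintype W := Fintype.ofFinite W
  obtain ⟨n, hn⟩ : ∃ n, n = Fintype.card W := ⟨_, rfl⟩
  let e' : Fin n ≃o W := Fintype.orderIsoFinOfCardEq W hn.symm
  let e : W ≃ Fin n := e'.symm.toEquiv
  have he : ∀ u w, rk u < rk w → e u < e w := fun u w h => e'.symm.strictMono h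
  let a0 : A := Classical.arbitrary A
  let G' : A → Fin n → V := fun l i => G l (e.symm i)
  have hG' : ∀ l, Injective (G' l) := fun l => (hG l).comp e.symm.injective
  let t : Fin n → S := fun i => vt P c (G a0 (e.symm i))
  have ht : ∀ i a, c (G' i a) (G' i a) = Sum.inl (t a) := fun i a => by
    have h1 := hc.diag (G i (e.symm a))
    rw [hGt i a0 (e.symm a)] at h1
    exact h1
  have hfib := ddxr_fib hN G' hG' t ht
  -- tuples of at most `M` elements
  have hfibM : ∀ (k : ℕ) (sv : Fin k → Fin n), 1 ≤ k → k ≤ M → StrictMono sv →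
      ∃ x : Fin k → V, Injective x ∧ (∀ a, c (x a) (x a) = Sum.inl (t (sv a))) ∧
        ∀ (j : Fin M) (α : Fin (j + 1) → Fin k), StrictMono α →
          N (fun a => ⟨j, pull 𝔹 (fun i => G' a (sv (α i)))⟩) =
            ⟨j, pull 𝔹 (fun i => x (α i))⟩ := by
    intro k sv hk1 hkM hsv
    obtain ⟨x, hxi, hxt, -, hx⟩ := hfib
      ⟨none, ⟨k, Nat.lt_succ_of_le hkM⟩, fun a => ⟨min (a : ℕ) (k - 1), by
          show min (a : ℕ) (k - 1) < k
          omega⟩,
        fun a => t (sv a)⟩ sv hsv (fun a => rfl) (fun i => trivial)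
    exact ⟨x, hxi, hxt, hx⟩
  have hOK : OK 𝔹 M (XX 𝔹 N G') := by
    intro m s hm hs' _
    rcases Nat.eq_zero_or_pos m with h0 | hpos
    · subst h0
      refine ⟨fun i => i.elim0, fun i => i.elim0, fun l z => (z ⟨0, (har l).1⟩).elim0⟩
    · obtain ⟨r, sv, y, hr, hr1, hsv, hy, hz⟩ := enum s
      have hyi : Injective y := by
        intro a b hab
        apply hs'
        rw [hz a, hz b, hab]
      obtain ⟨x, hxi, -, hx⟩ := hfibM r sv (hr1 hpos) (hr.trans hm) hsv
      refine ⟨fun i => x (y i), hxi.comp hyi, fun l z => ?_⟩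
      have h1 := xx_iff har hsv hx l (fun i => y (z i))
      have h2 : (fun i => sv (y (z i))) = fun i => s (z i) := by
        funext i
        rw [hz (z i)]
      rw [h2] at h1
      exact h1
  obtain ⟨ψ0, hmono, hemb⟩ := hs.base.univ n (XX 𝔹 N G') hOK
  have hpull : ∀ (k : ℕ) (sv : Fin k → Fin n) (x : Fin k → V), StrictMono sv →
      (∀ (j : Fin M) (α : Fin (j + 1) → Fin k), StrictMono α →
        N (fun a => ⟨j, pull 𝔹 (fun i => G' a (sv (α i)))⟩) =
          ⟨j, pull 𝔹 (fun i => x (α i))⟩) →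
      ∀ (l : Fin ρ.m) (z : Fin (ρ.ar l) → Fin k), 𝔹 l (fun i => ψ0 (sv (z i))) ↔
        𝔹 l (fun i => x (z i)) := by
    intro k sv x hsv hx l z
    rw [← hemb.2 l (fun i => sv (z i))]
    exact xx_iff har hsv hx l z
  refine ⟨fun w => ψ0 (e w), hmono.injective.comp e.injective, fun l z hz => ?_,
    fun a w => ?_, fun n' u hu => ?_⟩
  · obtain ⟨r, sv, ε, hr, -, hsv, hy, hε⟩ := enum (fun a => e (z a))
    obtain ⟨x, hxi, hxt, hxA, hx⟩ := hfib
      ⟨some l, ⟨r, Nat.lt_succ_of_le hr⟩, ε, fun b => t (sv b)⟩ sv hsv (fun a => rfl)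
      (fun i => by
        have h1 := hz i
        have h2 : (fun a => G' i (sv (ε a))) = fun a => G i (z a) := by
          funext a
          change G i (e.symm (sv (ε a))) = _
          rw [← hε a, e.symm_apply_apply]
        change 𝔸 l (fun a => G' i (sv (ε a)))
        rw [h2]
        exact h1)
    have h3 : (fun a => ψ0 (e (z a))) = fun a => ψ0 (sv (ε a)) := by
      funext a
      rw [← hε a]
    change 𝔸 l (fun a => ψ0 (e (z a)))
    rw [h3]
    refine hs.base.tyi l (fun a => x (ε a)) _ hxA ?_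
    unfold tp
    refine Prod.ext ?_ ?_
    · funext a b
      apply propext
      constructor
      · intro h4
        have h5 : ε a = ε b := hsv.injective (hmono.injective h4)
        show x (ε a) = x (ε b)
        rw [h5]
      · intro h4
        have h5 : ε a = ε b := hxi h4
        show ψ0 (sv (ε a)) = ψ0 (sv (ε b))
        rw [h5]
    · funext l' z'
      apply propext
      exact hpull r sv x hsv hx l' (fun i => ε (z' i))
  · -- types
    obtain ⟨x, hxi, hxt, hx⟩ := hfibM 1 (fun _ => e w) le_rfl (by omega)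
      (fun i j hij => absurd hij (by
        rw [Subsingleton.elim i j]
        exact lt_irrefl _))
    have h1 := hpull 1 (fun _ => e w) x (fun i j hij => absurd hij (by
        rw [Subsingleton.elim i j]
        exact lt_irrefl _)) hx
    have h2 : c (ψ0 (e w)) (ψ0 (e w)) = c (x 0) (x 0) := by
      refine (hs.lnk.eq _ _ _ _).2 ⟨⟨fun _ => rfl, fun _ => rfl⟩, fun l f => ?_⟩
      have h3 := h1 l (fun _ => 0)
      simp only [ite_self]
      exact h3
    change vt P c (ψ0 (e w)) = vt P c (G a w)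
    have h4 : vt P c (ψ0 (e w)) = t (e w) := by
      unfold vt
      rw [h2, hxt 0]
      rfl
    rw [h4, hGt a a0 w]
    change vt P c (G a0 (e.symm (e w))) = _
    rw [e.symm_apply_apply]
  · have hsv : StrictMono (fun i => e (u i)) := fun i j hij => he _ _ (hu hij)
    obtain ⟨x, hxi, -, hx⟩ := hfibM (n' + 1) (fun i => e (u i)) (by omega) (by omega) hsv
    have h1 := hpull (n' + 1) (fun i => e (u i)) x hsv hx
    have h2 := hx n' id strictMono_id
    have h3 : pull 𝔹 (fun i => ψ0 (e (u i))) = pull 𝔹 (fun i => x (id i)) := by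
      funext l z
      exact propext (h1 l z)
    change _ = (⟨n', pull 𝔹 (fun i => ψ0 (e (u i)))⟩ : Dm ρ M)
    rw [h3, ← h2]
    congr 1
    funext a
    have h4 : (fun i => G a (u i)) = fun i => G' a (e (u (id i))) := by
      funext i
      change _ = G a (e.symm (e (u i)))
      rw [e.symm_apply_apply]
    rw [h4]

end Pool.Agent.H73.AR
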